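import Mathlib

/-!
# An inequality for multisets of positive integers

If for every prime power `q` and every `x` at most as many elements `t ≥ x` of the multiset `X`
are divisible by `q` as of the multiset `Y`, then `∑_{t ∈ X} (t - 1) ≤ ∑_{t ∈ Y} (t - 1)`.

Proof: `t - 1 = F t * log t` where `F t = (t - 1) / log t` is monotone, and `log t` is the sum of
the von Mangoldt function over the divisors of `t`.
-/

set_option autoImplicit false

namespace Pool.Agent.H930.Fuj

open ArithmeticFunction Finset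

/-- The function `(t - 1) / log t`. -/
noncomputable def F (t : ℕ) : ℝ := ((t : ℝ) - 1) / Real.log t

theorem F_one : F 1 = 0 := by simp [F]

theorem F_mul_log {t : ℕ} (ht : 0 < t) : F t * Real.log t = (t : ℝ) - 1 := by
  unfold F
  rcases Nat.lt_or_ge 1 t with h | h
  · have h1 : Real.log (t : ℝ) ≠ 0 := by
      apply Real.log_ne_zero_of_pos_of_ne_one
      · exact_mod_cast ht
      · exact_mod_cast h.ne'
    field_simp
  · have h2 : t = 1 := by omega
    subst h2
    simp

theorem F_nonneg (t : ℕ) : 0 ≤ F t ∨ t = 0 := by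
  rcases Nat.eq_zero_or_pos t with h | h
  · exact Or.inr h
  · left
    unfold F
    apply div_nonneg
    · have : (1 : ℝ) ≤ t := by exact_mod_cast h
      linarith
    · exact Real.log_natCast_nonneg t

theorem F_mono {x y : ℕ} (hx : 1 ≤ x) (hxy : x ≤ y) : F x ≤ F y := by
  rcases Nat.eq_or_lt_of_le hx with h1 | h1
  · subst h1
    rw [F_one]
    rcases F_nonneg y with h | h
    · exact h
    · omega
  rcases Nat.eq_or_lt_of_le hxy with h2 | h2
  · subst h2; exact le_rfl
  -- `1 < x < y`
  have hx' : (1 : ℝ) < x := by exact_mod_cast h1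
  have hy' : (x : ℝ) < y := by exact_mod_cast h2
  have hlx : 0 < Real.log x := Real.log_pos hx'
  have hly : 0 < Real.log y := Real.log_pos (hx'.trans hy')
  unfold F
  rw [div_le_div_iff₀ hlx hly]
  have hc := strictConcaveOn_log_Ioi.concaveOn
  have h3 := hc.slope_anti_adjacent (x := (1 : ℝ)) (y := x) (z := y)
    (Set.mem_Ioi.2 one_pos) (Set.mem_Ioi.2 (by linarith)) hx' hy'
  rw [Real.log_one, sub_zero] at h3
  rw [div_le_div_iff₀ (by linarith) (by linarith)] at h3
  nlinarith

/-- Truncated `F`, zero at `0`. -/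
noncomputable def F0 (t : ℕ) : ℝ := if t = 0 then 0 else F t

theorem F0_mono_succ (x : ℕ) : F0 x ≤ F0 (x + 1) := by
  unfold F0
  rw [if_neg (Nat.succ_ne_zero x)]
  split_ifs with h
  · rcases F_nonneg (x + 1) with h1 | h1
    · exact h1
    · omega
  · exact F_mono (by omega) (by omega)

theorem sum_F_eq (g M : ℕ) (X : Multiset ℕ) (hX : ∀ t ∈ X, 0 < t ∧ t ≤ M) :
    (X.map fun t => if g ∣ t then F t else 0).sum =
      ∑ x ∈ range M, (F0 (x + 1) - F0 x) * (X.countP fun t => g ∣ t ∧ x + 1 ≤ t) := by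
  induction X using Multiset.induction_on with
  | empty => simp
  | cons t X ih =>
    have ht := hX t (Multiset.mem_cons_self t X)
    rw [Multiset.map_cons, Multiset.sum_cons, ih fun s hs => hX s (Multiset.mem_cons_of_mem hs)]
    have h1 : ∀ x : ℕ, (((t ::ₘ X).countP fun t => g ∣ t ∧ x + 1 ≤ t : ℕ) : ℝ) =
        (X.countP fun t => g ∣ t ∧ x + 1 ≤ t) + if g ∣ t ∧ x + 1 ≤ t then 1 else 0 := by
      intro x
      rw [Multiset.countP_cons]
      push_cast
      rfl
    simp_rw [h1, mul_add]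
    rw [sum_add_distrib, add_comm]
    congr 1
    by_cases hg : g ∣ t
    · simp only [hg, true_and, if_true, mul_ite, mul_one, mul_zero]
      rw [← sum_filter]
      have h2 : (range M).filter (fun x => x + 1 ≤ t) = range t := by
        ext x
        simp only [mem_filter, mem_range]
        omega
      rw [h2, sum_range_sub]
      unfold F0
      rw [if_neg (by omega), if_pos rfl, sub_zero]
    · simp [hg]

theorem sum_sub_one_eq (M : ℕ) (X : Multiset ℕ) (hX : ∀ t ∈ X, 0 < t ∧ t ≤ M) :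
    (X.map fun t : ℕ => (t : ℝ) - 1).sum =
      ∑ g ∈ Icc 1 M, Λ g * (X.map fun t => if g ∣ t then F t else 0).sum := by
  induction X using Multiset.induction_on with
  | empty => simp
  | cons t X ih =>
    have ht := hX t (Multiset.mem_cons_self t X)
    simp only [Multiset.map_cons, Multiset.sum_cons]
    rw [ih fun s hs => hX s (Multiset.mem_cons_of_mem hs)]
    simp_rw [mul_add]
    rw [sum_add_distrib]
    congr 1
    rw [← F_mul_log ht.1, ← vonMangoldt_sum, mul_sum]
    simp only [mul_ite, mul_zero]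
    rw [← sum_filter]
    refine sum_congr_of_eq_on_inter ?_ ?_ ?_
    · intro g hg hg2
      exfalso
      apply hg2
      rw [Nat.mem_divisors] at hg
      rw [mem_filter, mem_Icc]
      exact ⟨⟨Nat.pos_of_dvd_of_pos hg.1 ht.1, (Nat.le_of_dvd ht.1 hg.1).trans ht.2⟩, hg.1⟩
    · intro g hg hg2
      exfalso
      apply hg2
      rw [mem_filter] at hg
      rw [Nat.mem_divisors]
      exact ⟨hg.2, ht.1.ne'⟩
    · intro g _ _
      rw [mul_comm]

/-- If for every prime power `q` and every `x` at most as many elements `t ≥ x` of `X` are divisible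
by `q` as of `Y`, then `∑_{t ∈ X} (t - 1) ≤ ∑_{t ∈ Y} (t - 1)`. -/
theorem sum_le_sum_of_countP (X Y : Multiset ℕ) (hX : ∀ t ∈ X, 0 < t) (hY : ∀ t ∈ Y, 0 < t)
    (h : ∀ p k x : ℕ, p.Prime → 1 ≤ k →
      (X.countP fun t => p ^ k ∣ t ∧ x ≤ t) ≤ Y.countP fun t => p ^ k ∣ t ∧ x ≤ t) :
    X.sum + Multiset.card Y ≤ Y.sum + Multiset.card X := by
  obtain ⟨M, hM⟩ : ∃ M, ∀ t ∈ X + Y, t ≤ M :=
    ⟨(X + Y).sum, fun t ht => Multiset.single_le_sum (fun _ _ => Nat.zero_le _) t ht⟩
  have hX' : ∀ t ∈ X, 0 < t ∧ t ≤ M := fun t ht => ⟨hX t ht, hM t (Multiset.mem_add.2 (Or.inl ht))⟩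
  have hY' : ∀ t ∈ Y, 0 < t ∧ t ≤ M := fun t ht => ⟨hY t ht, hM t (Multiset.mem_add.2 (Or.inr ht))⟩
  have h1 : (X.map fun t : ℕ => (t : ℝ) - 1).sum ≤ (Y.map fun t : ℕ => (t : ℝ) - 1).sum := by
    rw [sum_sub_one_eq M X hX', sum_sub_one_eq M Y hY']
    refine sum_le_sum fun g hg => ?_
    by_cases hpp : IsPrimePow g
    · apply mul_le_mul_of_nonneg_left _ vonMangoldt_nonneg
      rw [sum_F_eq g M X hX', sum_F_eq g M Y hY']
      refine sum_le_sum fun x _ => ?_
      apply mul_le_mul_of_nonneg_left _ (by linarith [F0_mono_succ x])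
      obtain ⟨p, k, hp, hk, rfl⟩ := (isPrimePow_nat_iff g).1 hpp
      exact_mod_cast h p k (x + 1) hp hk
    · rw [vonMangoldt_eq_zero_iff.2 hpp, zero_mul, zero_mul]
  have h2 : ∀ Z : Multiset ℕ, (Z.map fun t : ℕ => (t : ℝ) - 1).sum =
      (Z.sum : ℝ) - Multiset.card Z := by
    intro Z
    induction Z using Multiset.induction_on with
    | empty => simp
    | cons t Z ih =>
      simp only [Multiset.map_cons, Multiset.sum_cons, Multiset.card_cons, ih]
      push_cast
      ring
  rw [h2, h2] at h1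
  have h3 : ((X.sum + Multiset.card Y : ℕ) : ℝ) ≤ ((Y.sum + Multiset.card X : ℕ) : ℝ) := by
    rw [Nat.cast_add, Nat.cast_add]
    linarith
  exact_mod_cast h3

end Pool.Agent.H930.Fuj
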