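import Pool.Agent.H930.Fuj.LogTrick

/-!
# A second inequality for multisets of integers which are at least two

If for every prime power `q` and every `x` at most as many elements `t ≥ x` of the multiset `X`
are divisible by `q` as of the multiset `Y`, and all elements are at least two, then
`∑_{t ∈ X} t ≤ ∑_{t ∈ Y} t`. (The function `t / log t` is increasing on the multiples of every prime
power.)
-/

set_option autoImplicit false

namespace Pool.Agent.H930.Fuj

open ArithmeticFunction Finset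

/-- The function `t / log t` on the multiples of `g`, made increasing on all integers. -/
noncomputable def H (g t : ℕ) : ℝ :=
  if t < g then 0 else if g = 2 ∧ t = 3 then (2 : ℝ) / Real.log 2 else (t : ℝ) / Real.log t

theorem log_two_pos : 0 < Real.log 2 := Real.log_pos (by norm_num)

theorem div_log_mono {x y : ℕ} (hx : 3 ≤ x) (hxy : x ≤ y) :
    (x : ℝ) / Real.log x ≤ (y : ℝ) / Real.log y := by
  have h1 : Real.exp 1 < 3 := Real.exp_one_lt_three
  have hx3 : (3 : ℝ) ≤ x := by exact_mod_cast hx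
  have hxy' : (x : ℝ) ≤ y := by exact_mod_cast hxy
  have h2 := Real.log_div_self_antitoneOn (a := (x : ℝ)) (b := (y : ℝ))
    (Set.mem_Ici.2 (by linarith)) (Set.mem_Ici.2 (by linarith)) hxy'
  simp only at h2
  have hlx : 0 < Real.log x := Real.log_pos (by linarith)
  have hly : 0 < Real.log y := Real.log_pos (by linarith)
  rw [div_le_div_iff₀ (by linarith) (by linarith)] at h2
  rw [div_le_div_iff₀ hlx hly]
  linarith

theorem H_of_lt {g t : ℕ} (h : t < g) : H g t = 0 := if_pos h

theorem H_two_three : H 2 3 = 2 / Real.log 2 := by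
  unfold H
  rw [if_neg (by norm_num), if_pos ⟨rfl, rfl⟩]

theorem H_else {g t : ℕ} (h : g ≤ t) (h2 : ¬ (g = 2 ∧ t = 3)) : H g t = (t : ℝ) / Real.log t := by
  unfold H
  rw [if_neg (by omega), if_neg h2]

theorem H_nonneg (g t : ℕ) : 0 ≤ H g t := by
  unfold H
  split_ifs
  · exact le_rfl
  · exact div_nonneg (by norm_num) log_two_pos.le
  · exact div_nonneg (Nat.cast_nonneg _) (Real.log_natCast_nonneg _)

theorem H_mono_succ {g : ℕ} (hg : 2 ≤ g) (x : ℕ) : H g x ≤ H g (x + 1) := by
  rcases Nat.lt_or_ge x g with h1 | h1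
  · rw [H_of_lt h1]
    exact H_nonneg _ _
  rcases Nat.lt_or_ge x 3 with h2 | h2
  · -- `g = x = 2`
    have hx : x = 2 := by omega
    have hg2 : g = 2 := by omega
    subst hx; subst hg2
    rw [H_else le_rfl (by omega), H_two_three]
    norm_num
  rw [H_else (t := x + 1) (by omega) (by omega)]
  rcases Nat.eq_or_lt_of_le h2 with h3 | h3
  · subst h3
    by_cases hg2 : g = 2
    · subst hg2
      rw [H_two_three]
      have h4 : Real.log ((3 + 1 : ℕ) : ℝ) = 2 * Real.log 2 := by
        have : ((3 + 1 : ℕ) : ℝ) = 2 ^ 2 := by norm_num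
        rw [this, Real.log_pow]
        norm_num
      rw [h4]
      have h5 := log_two_pos
      rw [div_le_div_iff₀ h5 (by linarith)]
      push_cast
      nlinarith
    · rw [H_else h1 (by omega)]
      exact div_log_mono le_rfl (by omega)
  · rw [H_else h1 (by omega)]
    exact div_log_mono h3.le (by omega)

theorem H_zero {g : ℕ} (hg : 2 ≤ g) : H g 0 = 0 := H_of_lt (by omega)

theorem H_of_dvd {g t : ℕ} (ht : 2 ≤ t) (h : g ∣ t) : H g t = (t : ℝ) / Real.log t := by
  refine H_else (Nat.le_of_dvd (by omega) h) ?_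
  rintro ⟨rfl, rfl⟩
  norm_num at h

theorem sum_H_eq {g : ℕ} (hg2 : 2 ≤ g) (M : ℕ) (X : Multiset ℕ) (hX : ∀ t ∈ X, 2 ≤ t ∧ t ≤ M) :
    (X.map fun t => if g ∣ t then (t : ℝ) / Real.log t else 0).sum =
      ∑ x ∈ range M, (H g (x + 1) - H g x) * (X.countP fun t => g ∣ t ∧ x + 1 ≤ t) := by
  induction X using Multiset.induction_on with
  | empty => simp
  | cons t X ih =>
    have ht := hX t (Multiset.mem_cons_self t X)
    rw [Multiset.map_cons, Multiset.sum_cons, ih fun s hs => hX s (Multiset.mem_cons_of_mem hs)]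
    have h1 : ∀ x : ℕ, (((t ::ₘ X).countP fun t => g ∣ t ∧ x + 1 ≤ t : ℕ) : ℝ) =
        (X.countP fun t => g ∣ t ∧ x + 1 ≤ t) + if g ∣ t ∧ x + 1 ≤ t then 1 else 0 := by
      intro x
      rw [Multiset.countP_cons]
      push_cast
      rfl
    simp_rw [h1, mul_add]
    rw [sum_add_distrib, add_comm]
    congr 1
    by_cases hg : g ∣ t
    · simp only [hg, true_and, if_true, mul_ite, mul_one, mul_zero]
      rw [← sum_filter]
      have h2 : (range M).filter (fun x => x + 1 ≤ t) = range t := by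
        ext x
        simp only [mem_filter, mem_range]
        omega
      rw [h2, sum_range_sub, H_zero hg2, H_of_dvd ht.1 hg, sub_zero]
    · simp [hg]

theorem sum_self_eq (M : ℕ) (X : Multiset ℕ) (hX : ∀ t ∈ X, 2 ≤ t ∧ t ≤ M) :
    (X.map fun t : ℕ => (t : ℝ)).sum =
      ∑ g ∈ Icc 1 M, Λ g * (X.map fun t => if g ∣ t then (t : ℝ) / Real.log t else 0).sum := by
  induction X using Multiset.induction_on with
  | empty => simp
  | cons t X ih =>
    have ht := hX t (Multiset.mem_cons_self t X)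
    have ht0 : 0 < t := by omega
    simp only [Multiset.map_cons, Multiset.sum_cons]
    rw [ih fun s hs => hX s (Multiset.mem_cons_of_mem hs)]
    simp_rw [mul_add]
    rw [sum_add_distrib]
    congr 1
    have hlog : Real.log (t : ℝ) ≠ 0 := by
      apply (Real.log_pos _).ne'
      exact_mod_cast ht.1
    have h0 : (t : ℝ) = (t : ℝ) / Real.log t * Real.log t := by field_simp
    conv_lhs => rw [h0]
    rw [← vonMangoldt_sum, mul_sum]
    simp only [mul_ite, mul_zero]
    rw [← sum_filter]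
    refine sum_congr_of_eq_on_inter ?_ ?_ ?_
    · intro g hg hg2
      exfalso
      apply hg2
      rw [Nat.mem_divisors] at hg
      rw [mem_filter, mem_Icc]
      exact ⟨⟨Nat.pos_of_dvd_of_pos hg.1 ht0, (Nat.le_of_dvd ht0 hg.1).trans ht.2⟩, hg.1⟩
    · intro g hg hg2
      exfalso
      apply hg2
      rw [mem_filter] at hg
      rw [Nat.mem_divisors]
      exact ⟨hg.2, ht0.ne'⟩
    · intro g _ _
      rw [vonMangoldt_sum, mul_comm]

/-- If for every prime power `q` and every `x` at most as many elements `t ≥ x` of `X` are divisible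
by `q` as of `Y`, and all elements are at least two, then `∑_{t ∈ X} t ≤ ∑_{t ∈ Y} t`. -/
theorem sum_le_sum_of_countP_two (X Y : Multiset ℕ) (hX : ∀ t ∈ X, 2 ≤ t) (hY : ∀ t ∈ Y, 2 ≤ t)
    (h : ∀ p k x : ℕ, p.Prime → 1 ≤ k →
      (X.countP fun t => p ^ k ∣ t ∧ x ≤ t) ≤ Y.countP fun t => p ^ k ∣ t ∧ x ≤ t) :
    X.sum ≤ Y.sum := by
  obtain ⟨M, hM⟩ : ∃ M, ∀ t ∈ X + Y, t ≤ M :=
    ⟨(X + Y).sum, fun t ht => Multiset.single_le_sum (fun _ _ => Nat.zero_le _) t ht⟩
  have hX' : ∀ t ∈ X, 2 ≤ t ∧ t ≤ M := fun t ht => ⟨hX t ht, hM t (Multiset.mem_add.2 (Or.inl ht))⟩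
  have hY' : ∀ t ∈ Y, 2 ≤ t ∧ t ≤ M := fun t ht => ⟨hY t ht, hM t (Multiset.mem_add.2 (Or.inr ht))⟩
  have h1 : (X.map fun t : ℕ => (t : ℝ)).sum ≤ (Y.map fun t : ℕ => (t : ℝ)).sum := by
    rw [sum_self_eq M X hX', sum_self_eq M Y hY']
    refine sum_le_sum fun g hg => ?_
    by_cases hpp : IsPrimePow g
    · apply mul_le_mul_of_nonneg_left _ vonMangoldt_nonneg
      have hg2 : 2 ≤ g := hpp.two_le
      rw [sum_H_eq hg2 M X hX', sum_H_eq hg2 M Y hY']
      refine sum_le_sum fun x _ => ?_
      apply mul_le_mul_of_nonneg_left _ (by linarith [H_mono_succ hg2 x])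
      obtain ⟨p, k, hp, hk, rfl⟩ := (isPrimePow_nat_iff g).1 hpp
      exact_mod_cast h p k (x + 1) hp hk
    · rw [vonMangoldt_eq_zero_iff.2 hpp, zero_mul, zero_mul]
  have h2 : ∀ Z : Multiset ℕ, (Z.map fun t : ℕ => (t : ℝ)).sum = (Z.sum : ℝ) := by
    intro Z
    induction Z using Multiset.induction_on with
    | empty => simp
    | cons t Z ih =>
      simp only [Multiset.map_cons, Multiset.sum_cons, ih]
      push_cast
      ring
  rw [h2, h2] at h1
  exact_mod_cast h1

end Pool.Agent.H930.Fuj
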