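import Pool.Agent.H930.Fuj.Count

/-!
# Greedy merging

Two clusters with gcds `g s`, `g t` for which `lcm (g s) (g t)` is minimal are merged, until only one
cluster is left. The multiset `L` of these least common multiples bounds the Frobenius number of the
semigroup of the `g t` and satisfies the count of the equations for every prime power.
-/

set_option autoImplicit false
set_option linter.unusedSectionVars false

namespace Pool.Agent.H930.Fuj

open MvPolynomial Finset

/-- Two generators. -/
theorem two_gen {p q h : ℕ} (hp : 0 < p) (hq : 0 < q) (hh : 0 < h) (hpq : Nat.gcd p q = h) (w : ℕ) :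
    ∃ x y : ℕ, (w : ℤ) * h + (Nat.lcm p q + h - p - q) = x * p + y * q := by
  obtain ⟨p', hp'⟩ : h ∣ p := hpq ▸ Nat.gcd_dvd_left p q
  obtain ⟨q', hq'⟩ : h ∣ q := hpq ▸ Nat.gcd_dvd_right p q
  have hp0 : 0 < p' := Nat.pos_of_ne_zero (by rintro rfl; simp at hp'; omega)
  have hq0 : 0 < q' := Nat.pos_of_ne_zero (by rintro rfl; simp at hq'; omega)
  have hcop : Nat.gcd p' q' = 1 := by
    have h1 : Nat.gcd p q = h * Nat.gcd p' q' := by rw [hp', hq', Nat.gcd_mul_left]
    rw [hpq] at h1
    have h2 : h * Nat.gcd p' q' = h * 1 := by omega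
    exact Nat.eq_of_mul_eq_mul_left hh h2
  have hl : Nat.lcm p q = h * (p' * q') := by
    rw [hp', hq', Nat.lcm_mul_left, (Nat.Coprime.lcm_eq_mul hcop)]
  obtain ⟨x, y, hxy⟩ := Nat.exists_add_mul_eq_of_gcd_dvd_of_mul_pred_le p' q'
    (w + p'.pred * q'.pred) (by rw [hcop]; exact one_dvd _) (Nat.le_add_left _ _)
  refine ⟨x, y, ?_⟩
  have h3 : ((x * p' + y * q' : ℕ) : ℤ) = ((w + p'.pred * q'.pred : ℕ) : ℤ) := by
    exact_mod_cast hxy
  push_cast at h3
  have h4 : ((p'.pred : ℕ) : ℤ) = p' - 1 := by
    rw [Nat.pred_eq_sub_one]; push_cast [Nat.cast_sub hp0]; ring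
  have h5 : ((q'.pred : ℕ) : ℤ) = q' - 1 := by
    rw [Nat.pred_eq_sub_one]; push_cast [Nat.cast_sub hq0]; ring
  rw [h4, h5] at h3
  rw [hl, hp', hq']
  push_cast
  linear_combination (-(h : ℤ)) * h3

theorem prime_pow_dvd_lcm {p k a b : ℕ} (hp : p.Prime) : p ^ k ∣ Nat.lcm a b ↔
    p ^ k ∣ a ∨ p ^ k ∣ b := by
  constructor
  · intro h
    rcases Nat.eq_zero_or_pos a with ha | ha
    · left; rw [ha]; exact dvd_zero _
    rcases Nat.eq_zero_or_pos b with hb | hb
    · right; rw [hb]; exact dvd_zero _
    have hl : Nat.lcm a b ≠ 0 := (Nat.lcm_pos ha hb).ne'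
    rw [hp.pow_dvd_iff_le_factorization hl, Nat.factorization_lcm ha.ne' hb.ne',
      Finsupp.sup_apply, le_sup_iff] at h
    rcases h with h | h
    · left; exact (hp.pow_dvd_iff_le_factorization ha.ne').2 h
    · right; exact (hp.pow_dvd_iff_le_factorization hb.ne').2 h
  · rintro (h | h)
    · exact h.trans (Nat.dvd_lcm_left _ _)
    · exact h.trans (Nat.dvd_lcm_right _ _)

theorem countP_le_of_imp {p q : ℕ → Prop} [DecidablePred p] [DecidablePred q] (s : Multiset ℕ)
    (h : ∀ b, p b → q b) : s.countP p ≤ s.countP q := by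
  rw [Multiset.countP_eq_card_filter, Multiset.countP_eq_card_filter]
  exact Multiset.card_le_card (Multiset.monotone_filter_right _ h)

variable {ι κ : Type} [Fintype ι] [DecidableEq ι] [Fintype κ]

variable {a : ι → ℕ} {d : κ → ℕ} {f : κ → MvPolynomial ι ℂ} {v : ι → ℂ}

/-- Merging the clusters of `s` and `t`. -/
theorem State.merge {R : Finset ι} {r : ι → ι} {g : ι → ℕ} (hs : State a v R r g) {s t : ι}
    (hsR : s ∈ R) (hst : s ≠ t) :
    State a v (R.erase t) (fun i => if r i = t then s else r i)
      (Function.update g s (Nat.gcd (g s) (g t))) where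
  mem := by
    intro i hi
    have h1 := hs.mem i hi
    by_cases h : r i = t
    · simp only [h, if_true]
      exact mem_erase.2 ⟨hst, hsR⟩
    · simp only [h, if_false]
      exact mem_erase.2 ⟨h, h1⟩
  ne := fun u hu => hs.ne u (mem_of_mem_erase hu)
  fix := by
    intro u hu
    have h1 := hs.fix u (mem_of_mem_erase hu)
    have h2 := ne_of_mem_erase hu
    simp only [h1, h2, if_false]
  dvd := by
    intro i hi
    have h1 := hs.dvd i hi
    by_cases h : r i = t
    · simp only [h, if_true, Function.update_self]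
      rw [h] at h1
      exact (Nat.gcd_dvd_right _ _).trans h1
    · simp only [h, if_false]
      by_cases h2 : r i = s
      · rw [h2, Function.update_self]
        rw [h2] at h1
        exact (Nat.gcd_dvd_left _ _).trans h1
      · rw [Function.update_of_ne h2]
        exact h1
  pos := by
    intro u hu
    by_cases h2 : u = s
    · rw [h2, Function.update_self]
      exact Nat.gcd_pos_of_pos_left _ (hs.pos s hsR)
    · rw [Function.update_of_ne h2]
      exact hs.pos u (mem_of_mem_erase hu)

theorem exists_multiset (ha : ∀ i, 0 < a i)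
    (hd : ∀ j, 0 < d j) (hf : ∀ j, IsWeightedHomogeneous a (f j) (d j))
    (hv : ∀ j, eval v (f j) = 0)
    (hlcm : ∀ j, ∀ i ∈ (f j).vars, ∀ l ∈ (f j).vars, i ≠ l → Nat.lcm (a i) (a l) ≤ d j)
    (hfree : ∀ z : ι → ℂ, z ≠ 0 → (∀ j, eval z (f j) = 0) →
      ∀ q : ℕ, (∀ i, z i ≠ 0 → q ∣ a i) → q = 1) (n : ℕ) :
    ∀ (R : Finset ι) (r : ι → ι) (g : ι → ℕ), State a v R r g → R.card = n + 1 →
      (∀ q : ℕ, (∀ t ∈ R, q ∣ g t) → q = 1) →
      ∃ L : Multiset ℕ, (∀ l ∈ L, 0 < l) ∧ L.card = n ∧
        (∀ e : ℤ, (L.sum : ℤ) - ∑ t ∈ R, (g t : ℤ) + 1 ≤ e →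
          ∃ w : ι → ℕ, e = ∑ t ∈ R, (w t : ℤ) * g t) ∧
        (∀ p k x : ℕ, p.Prime → 1 ≤ k → L.countP (fun t => p ^ k ∣ t ∧ x ≤ t) +
          (univ.filter fun u => v u = 0 ∧ p ^ k ∣ a u ∧ x ≤ a u).card ≤
          (univ.filter fun j => p ^ k ∣ d j ∧ x ≤ d j).card) ∧
        (∀ p k : ℕ, p.Prime → 1 ≤ k →
          L.countP (fun t => p ^ k ∣ t) ≤ (R.filter fun t => p ^ k ∣ g t).card) ∧
        ((∀ s ∈ R, ∀ t ∈ R, s ≠ t → g s = 1 → g t ≠ 1) → ∀ l ∈ L, 2 ≤ l) := by
  induction n with
  | zero =>
    intro R r g hs hR hg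
    obtain ⟨t, rfl⟩ := Finset.card_eq_one.1 hR
    have h1 : g t = 1 := hg (g t) (fun u hu => by rw [mem_singleton.1 hu])
    refine ⟨0, by simp, rfl, ?_, ?_, by simp, by simp⟩
    · intro e he
      refine ⟨fun _ => e.toNat, ?_⟩
      rw [Finset.sum_singleton, h1] at he ⊢
      simp only [Multiset.sum_zero] at he
      push_cast at he ⊢
      rw [mul_one, Int.toNat_of_nonneg (by linarith)]
    · intro p k x hp hk
      have h2 := hs.card_le (Q := p ^ k) (x := x) ha hd hf hv hlcm hfree
        (le_trans hp.two_le (Nat.le_self_pow (by omega) p)) (by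
          intro s hs' t' ht' hne
          rw [mem_singleton] at hs' ht'
          exact absurd (hs'.trans ht'.symm) hne)
      rw [Multiset.countP_zero, zero_add]
      exact le_trans (Nat.le_add_left _ _) h2
  | succ n ih =>
    intro R r g hs hR hg
    -- the minimal pair
    have hne : R.offDiag.Nonempty := by
      rw [← Finset.card_pos, Finset.offDiag_card, hR]
      have : n + 1 + 1 ≤ (n + 1 + 1) * (n + 1) := Nat.le_mul_of_pos_right _ (by omega)
      have h3 : (n + 1 + 1) * (n + 1 + 1) = (n + 1 + 1) * (n + 1) + (n + 1 + 1) := by ring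
      omega
    obtain ⟨⟨s, t⟩, hst, hmin⟩ := Finset.exists_min_image R.offDiag
      (fun z => Nat.lcm (g z.1) (g z.2)) hne
    rw [mem_offDiag] at hst
    obtain ⟨hsR, htR, hst⟩ := hst
    simp only at hsR htR hst hmin
    have hmin' : ∀ u ∈ R, ∀ w ∈ R, u ≠ w → Nat.lcm (g s) (g t) ≤ Nat.lcm (g u) (g w) :=
      fun u hu w hw huw => hmin (u, w) (mem_offDiag.2 ⟨hu, hw, huw⟩)
    set L₀ := Nat.lcm (g s) (g t) with hL₀
    set h := Nat.gcd (g s) (g t) with hh
    have hgs := hs.pos s hsR
    have hgt := hs.pos t htR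
    have hhpos : 0 < h := Nat.gcd_pos_of_pos_left _ hgs
    have hsE : s ∈ R.erase t := mem_erase.2 ⟨hst, hsR⟩
    obtain ⟨L, hL1, hL2, hLa, hLb, hLc, hLd⟩ := ih (R.erase t) _ _ (hs.merge hsR hst)
      (by rw [Finset.card_erase_of_mem htR, hR]; rfl) (by
        intro q hq
        apply hg
        have hqs := hq s hsE
        rw [Function.update_self] at hqs
        intro u hu
        by_cases hut : u = t
        · rw [hut]; exact hqs.trans (Nat.gcd_dvd_right _ _)
        by_cases hus : u = s
        · rw [hus]; exact hqs.trans (Nat.gcd_dvd_left _ _)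
        have := hq u (mem_erase.2 ⟨hut, hu⟩)
        rwa [Function.update_of_ne hus] at this)
    simp only [← hh] at hLa hLc hLd
    -- the other clusters
    have hsum : ∀ F : ι → ℤ, ∑ u ∈ R, F u = F t + (F s + ∑ u ∈ (R.erase t).erase s, F u) := by
      intro F
      rw [Finset.add_sum_erase _ _ hsE, Finset.add_sum_erase _ _ htR]
    have hsum' : ∀ F : ι → ℤ, ∑ u ∈ R.erase t, F u = F s + ∑ u ∈ (R.erase t).erase s, F u := by
      intro F
      rw [Finset.add_sum_erase _ _ hsE]
    have hcard : ∀ P : ι → Prop, [DecidablePred P] → (R.filter P).card =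
        (if P t then 1 else 0) + ((if P s then 1 else 0) +
          (((R.erase t).erase s).filter P).card) := by
      intro P _
      simp only [Finset.card_filter]
      rw [Finset.add_sum_erase _ (fun i => if P i then 1 else 0) hsE,
        Finset.add_sum_erase _ (fun i => if P i then 1 else 0) htR]
    have hcard' : ∀ P : ι → Prop, [DecidablePred P] → ((R.erase t).filter P).card =
        (if P s then 1 else 0) + (((R.erase t).erase s).filter P).card := by
      intro P _
      simp only [Finset.card_filter]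
      rw [Finset.add_sum_erase _ (fun i => if P i then 1 else 0) hsE]
    have hrest : ∀ u ∈ (R.erase t).erase s, Function.update g s h u = g u := by
      intro u hu
      exact Function.update_of_ne (ne_of_mem_erase hu) _ _
    have hc : ∀ p k : ℕ, p.Prime → 1 ≤ k → (L₀ ::ₘ L).countP (fun t => p ^ k ∣ t) ≤
        (R.filter fun t => p ^ k ∣ g t).card := by
      intro p k hp hk
      have h1 := hLc p k hp hk
      rw [hcard'] at h1
      rw [hcard, Multiset.countP_cons]
      have h2 : (((R.erase t).erase s).filter fun u => p ^ k ∣ Function.update g s h u) =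
          (((R.erase t).erase s).filter fun u => p ^ k ∣ g u) := by
        apply Finset.filter_congr
        intro u hu
        rw [hrest u hu]
      rw [h2, Function.update_self] at h1
      have h3 : p ^ k ∣ L₀ ↔ p ^ k ∣ g s ∨ p ^ k ∣ g t := by
        rw [hL₀]; exact prime_pow_dvd_lcm hp
      have h4 : p ^ k ∣ h ↔ p ^ k ∣ g s ∧ p ^ k ∣ g t := by
        rw [hh]; exact Nat.dvd_gcd_iff
      simp only [h3]
      simp only [h4] at h1
      by_cases ha1 : p ^ k ∣ g s <;> by_cases ha2 : p ^ k ∣ g t <;>
        simp [ha1, ha2] at h1 ⊢ <;> omega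
    refine ⟨L₀ ::ₘ L, ?_, by rw [Multiset.card_cons, hL2], ?_, ?_, hc, ?_⟩
    · intro l hl
      rcases Multiset.mem_cons.1 hl with h1 | h1
      · rw [h1]; exact Nat.lcm_pos hgs hgt
      · exact hL1 l h1
    · -- the semigroup
      intro e he
      rw [hsum, Multiset.sum_cons, Nat.cast_add] at he
      obtain ⟨w, hw⟩ := hLa (e - (L₀ + h - g s - g t)) (by
        rw [hsum', Function.update_self, Finset.sum_congr rfl fun u hu => by rw [hrest u hu]]
        linarith)
      rw [hsum', Function.update_self,
        Finset.sum_congr rfl fun u hu => by rw [hrest u hu]] at hw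
      obtain ⟨x, y, hxy⟩ := two_gen hgs hgt hhpos hh.symm (w s)
      refine ⟨fun u => if u = s then x else if u = t then y else w u, ?_⟩
      rw [hsum]
      have h5 : ∑ u ∈ (R.erase t).erase s,
          (((if u = s then x else if u = t then y else w u : ℕ) : ℤ)) * g u =
          ∑ u ∈ (R.erase t).erase s, (w u : ℤ) * g u := by
        refine Finset.sum_congr rfl fun u hu => ?_
        rw [if_neg (ne_of_mem_erase hu), if_neg (ne_of_mem_erase (mem_of_mem_erase hu))]
      rw [h5]
      simp only [if_true, if_neg hst.symm]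
      rw [← hL₀] at hxy
      linarith
    · intro p k x hp hk
      by_cases hx : x ≤ L₀
      · have h1 := hs.card_le (Q := p ^ k) (x := x) ha hd hf hv hlcm hfree
          (le_trans hp.two_le (Nat.le_self_pow (by omega) p))
          (fun u hu w hw huw => hx.trans (hmin' u hu w hw huw))
        have h2 := hc p k hp hk
        have h3 : (L₀ ::ₘ L).countP (fun t => p ^ k ∣ t ∧ x ≤ t) ≤
            (L₀ ::ₘ L).countP (fun t => p ^ k ∣ t) :=
          countP_le_of_imp _ (fun b hb => hb.1)
        omega
      · have h1 := hLb p k x hp hk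
        rw [Multiset.countP_cons_of_neg]
        · exact h1
        · intro h2
          exact hx h2.2
    · -- no least common multiple is one
      intro hone
      -- the other clusters do not have the weight one if the union has it
      have hkey : ∀ w ∈ R.erase t, w ≠ s → h = 1 → g w ≠ 1 := by
        intro w hw hws h1 hgw
        have hwR := mem_of_mem_erase hw
        have h2 := hmin' w hwR s hsR hws
        rw [hgw, Nat.lcm_one_left] at h2
        have h3 : g s ∣ L₀ := Nat.dvd_lcm_left _ _
        have h4 : L₀ = g s := le_antisymm h2 (Nat.le_of_dvd (Nat.lcm_pos hgs hgt) h3)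
        have h5 : g t ∣ g s := by
          have h6 : g t ∣ L₀ := Nat.dvd_lcm_right _ _
          rwa [h4] at h6
        have h7 : h = g t := by rw [hh]; exact Nat.gcd_eq_right h5
        exact hone w hwR t htR (ne_of_mem_erase hw) hgw (h7.symm.trans h1)
      intro l hl
      rcases Multiset.mem_cons.1 hl with h1 | h1
      · rw [h1]
        have h2 : 0 < L₀ := Nat.lcm_pos hgs hgt
        by_contra hcon
        have h3 : L₀ = 1 := by omega
        have h4 : g s = 1 := Nat.dvd_one.1 (h3 ▸ Nat.dvd_lcm_left (g s) (g t))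
        have h5 : g t = 1 := Nat.dvd_one.1 (h3 ▸ Nat.dvd_lcm_right (g s) (g t))
        exact hone s hsR t htR hst h4 h5
      · refine hLd ?_ l h1
        intro u hu w hw huw hgu hgw
        by_cases hus : u = s
        · rw [hus, Function.update_self] at hgu
          have hws : w ≠ s := fun h => huw (hus.trans h.symm)
          rw [Function.update_of_ne hws] at hgw
          exact hkey w hw hws hgu hgw
        rw [Function.update_of_ne hus] at hgu
        by_cases hws : w = s
        · rw [hws, Function.update_self] at hgw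
          exact hkey u hu hus hgw hgu
        rw [Function.update_of_ne hws] at hgw
        exact hone u (mem_of_mem_erase hu) w (mem_of_mem_erase hw) huw hgu hgw

end Pool.Agent.H930.Fuj
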