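import Pool.Agent.H930.Fuj.Strip

/-!
# A bound for the Frobenius number

Let `a i > 0`, `d j > 0` be such that there are more `a i` than `d j`, but for all `g ≥ 2` at most as
many multiples of `g` among the `a i` as among the `d j`, and let all `d j` be in the semigroup
generated by the `a i`. Then this semigroup contains all `e` with `e > ∑ d j - ∑ a i`.
-/

set_option autoImplicit false

namespace Pool.Agent.H930.Fuj.Numeric

open Polynomial Finset

theorem X_pow_sub_one_ne_zero {m : ℕ} (hm : 0 < m) : (X ^ m - 1 : ℂ[X]) ≠ 0 := by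
  have := X_pow_sub_C_ne_zero hm (1 : ℂ)
  rwa [map_one] at this

theorem count_roots_X_pow_sub_one {m : ℕ} (hm : 0 < m) (ζ : ℂ) :
    (X ^ m - 1 : ℂ[X]).roots.count ζ = if orderOf ζ ∣ m then 1 else 0 := by
  split_ifs with h
  · apply Multiset.count_eq_one_of_mem
    · apply nodup_roots
      have h1 := separable_X_pow_sub_C (F := ℂ) (n := m) 1 (Nat.cast_ne_zero.2 hm.ne') one_ne_zero
      rwa [map_one] at h1
    · rw [mem_roots (X_pow_sub_one_ne_zero hm), IsRoot.def]
      simp only [eval_sub, eval_pow, eval_X, eval_one]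
      rw [orderOf_dvd_iff_pow_eq_one.1 h, sub_self]
  · apply Multiset.count_eq_zero_of_notMem
    intro hmem
    rw [mem_roots (X_pow_sub_one_ne_zero hm), IsRoot.def] at hmem
    simp only [eval_sub, eval_pow, eval_X, eval_one] at hmem
    exact h (orderOf_dvd_iff_pow_eq_one.2 (sub_eq_zero.1 hmem))

theorem prod_ne {ι : Type} [Fintype ι] {a : ι → ℕ} (ha : ∀ i, 0 < a i) :
    (∏ i, (X ^ a i - 1) : ℂ[X]) ≠ 0 :=
  Finset.prod_ne_zero_iff.2 fun i _ => X_pow_sub_one_ne_zero (ha i)

theorem count_roots_prod {ι : Type} [Fintype ι] {a : ι → ℕ} (ha : ∀ i, 0 < a i) (ζ : ℂ) :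
    (∏ i, (X ^ a i - 1) : ℂ[X]).roots.count ζ =
      (univ.filter fun i => orderOf ζ ∣ a i).card := by
  classical
  rw [roots_prod _ _ (prod_ne ha), Multiset.count_bind]
  have h1 : (Multiset.map (fun i => (X ^ a i - 1 : ℂ[X]).roots.count ζ)
      (univ : Finset ι).val).sum = ∑ i, (X ^ a i - 1 : ℂ[X]).roots.count ζ := rfl
  rw [h1, Finset.sum_congr rfl fun i _ => count_roots_X_pow_sub_one (ha i) ζ, Finset.card_filter]

theorem monic_prod {ι : Type} [Fintype ι] {a : ι → ℕ} (ha : ∀ i, 0 < a i) :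
    (∏ i, (X ^ a i - 1) : ℂ[X]).Monic := by
  apply monic_prod_of_monic
  intro i _
  have := monic_X_pow_sub_C (1 : ℂ) (ha i).ne'
  rwa [map_one] at this

theorem natDegree_prod' {ι : Type} [Fintype ι] {a : ι → ℕ} (ha : ∀ i, 0 < a i) :
    (∏ i, (X ^ a i - 1) : ℂ[X]).natDegree = ∑ i, a i := by
  rw [natDegree_prod_of_monic]
  · refine Finset.sum_congr rfl fun i _ => ?_
    have := natDegree_X_pow_sub_C (n := a i) (r := (1 : ℂ))
    rwa [map_one] at this
  · intro i _
    have := monic_X_pow_sub_C (1 : ℂ) (ha i).ne'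
    rwa [map_one] at this

/-- Power series whose coefficients vanish outside of a submonoid. -/
def Supp (S : AddSubmonoid ℕ) : Submonoid (PowerSeries ℂ) where
  carrier := {f | ∀ k, k ∉ S → PowerSeries.coeff k f = 0}
  one_mem' := by
    intro k hk
    rw [PowerSeries.coeff_one, if_neg]
    rintro rfl
    exact hk S.zero_mem
  mul_mem' := by
    intro f g hf hg k hk
    rw [PowerSeries.coeff_mul]
    refine Finset.sum_eq_zero fun p hp => ?_
    have h1 := HasAntidiagonal.mem_antidiagonal.1 hp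
    by_cases h2 : p.1 ∈ S
    · by_cases h3 : p.2 ∈ S
      · exact absurd (h1 ▸ S.add_mem h2 h3) hk
      · rw [hg _ h3, mul_zero]
    · rw [hf _ h2, zero_mul]

theorem X_pow_sub_one_mem {S : AddSubmonoid ℕ} {m : ℕ} (hm : m ∈ S) :
    (PowerSeries.X ^ m - 1 : PowerSeries ℂ) ∈ Supp S := by
  intro k hk
  rw [map_sub, PowerSeries.coeff_X_pow, PowerSeries.coeff_one, if_neg, if_neg, sub_zero]
  · rintro rfl
    exact hk S.zero_mem
  · rintro rfl
    exact hk hm

theorem coe_prod {ι : Type} [Fintype ι] (p : ι → ℂ[X]) :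
    ((∏ i, p i : ℂ[X]) : PowerSeries ℂ) = ∏ i, (p i : PowerSeries ℂ) := by
  have := map_prod (Polynomial.coeToPowerSeries.ringHom (R := ℂ)) p univ
  simpa only [Polynomial.coeToPowerSeries.ringHom_apply] using this

/-- The series `∑ X ^ (k m)`. -/
def G (m : ℕ) : PowerSeries ℂ := PowerSeries.mk fun k => if m ∣ k then 1 else 0

theorem G_mem {S : AddSubmonoid ℕ} {m : ℕ} (hm : m ∈ S) : G m ∈ Supp S := by
  intro k hk
  rw [G, PowerSeries.coeff_mk, if_neg]
  rintro ⟨l, rfl⟩
  apply hk
  rw [mul_comm, ← smul_eq_mul]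
  exact S.nsmul_mem hm l

theorem G_mul {m : ℕ} (hm : 0 < m) : (PowerSeries.X ^ m - 1) * G m = -1 := by
  ext k
  rw [sub_mul, one_mul, map_sub, PowerSeries.coeff_X_pow_mul', map_neg, PowerSeries.coeff_one, G,
    PowerSeries.coeff_mk]
  by_cases h1 : m ≤ k
  · rw [if_pos h1, PowerSeries.coeff_mk, if_neg (show k ≠ 0 by omega)]
    by_cases h2 : m ∣ k
    · rw [if_pos h2, if_pos (Nat.dvd_sub h2 dvd_rfl)]
      simp
    · rw [if_neg h2, if_neg]
      · simp
      · intro h3
        apply h2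
        have := Nat.dvd_add h3 (dvd_refl m)
        rwa [Nat.sub_add_cancel h1] at this
  · rw [if_neg h1]
    by_cases h2 : k = 0
    · subst h2
      simp
    · rw [if_neg h2, PowerSeries.coeff_mk, if_neg]
      · simp
      · intro h3
        exact h1 (Nat.le_of_dvd (by omega) h3)

/-- **The bound for the Frobenius number.** -/
theorem mem_closure {ι κ : Type} [Fintype ι] [Fintype κ] (a : ι → ℕ) (ha : ∀ i, 0 < a i)
    (d : κ → ℕ) (hd : ∀ j, 0 < d j) (hcard : Fintype.card κ < Fintype.card ι)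
    (hdiv : ∀ g, 2 ≤ g → (univ.filter fun i => g ∣ a i).card ≤ (univ.filter fun j => g ∣ d j).card)
    (hmem : ∀ j, d j ∈ AddSubmonoid.closure (Set.range a)) (e : ℕ)
    (he : ∑ j, d j < e + ∑ i, a i) : e ∈ AddSubmonoid.closure (Set.range a) := by
  classical
  obtain ⟨n, hn⟩ : ∃ n, Fintype.card ι = n + 1 + Fintype.card κ :=
    ⟨Fintype.card ι - Fintype.card κ - 1, by omega⟩
  set A : ℂ[X] := ∏ i, (X ^ a i - 1) with hA
  set D : ℂ[X] := ∏ j, (X ^ d j - 1) with hD
  set B : ℂ[X] := (X - C 1) ^ (n + 1) * D with hB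
  have hA0 : A ≠ 0 := prod_ne ha
  have hD0 : D ≠ 0 := prod_ne hd
  have hX0 : ((X - C 1) ^ (n + 1) : ℂ[X]) ≠ 0 := pow_ne_zero _ (X_sub_C_ne_zero 1)
  have hB0 : B ≠ 0 := mul_ne_zero hX0 hD0
  -- multiplicities
  have hcountA : ∀ ζ, A.roots.count ζ = (univ.filter fun i => orderOf ζ ∣ a i).card :=
    count_roots_prod ha
  have hcountD : ∀ ζ, D.roots.count ζ = (univ.filter fun j => orderOf ζ ∣ d j).card :=
    count_roots_prod hd
  have hcountX : ∀ ζ : ℂ, ((X - C 1) ^ (n + 1) : ℂ[X]).roots.count ζ = if ζ = 1 then n + 1 else 0 := by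
    intro ζ
    rw [roots_pow, roots_X_sub_C, Multiset.count_nsmul, Multiset.count_singleton]
    split_ifs <;> simp
  have hrootsB : B.roots = ((X - C 1) ^ (n + 1) : ℂ[X]).roots + D.roots := roots_mul hB0
  have hcount1 : B.roots.count 1 = A.roots.count 1 := by
    rw [hrootsB, Multiset.count_add, hcountX, if_pos rfl, hcountD, hcountA]
    simp only [orderOf_one, one_dvd, Finset.filter_true, Finset.card_univ]
    omega
  have hle : A.roots ≤ B.roots := by
    rw [Multiset.le_iff_count]
    intro ζ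
    by_cases h1 : ζ = 1
    · rw [h1, hcount1]
    · rw [hrootsB, Multiset.count_add, hcountX, if_neg h1, zero_add, hcountD, hcountA]
      rcases Nat.lt_or_ge (orderOf ζ) 2 with h2 | h2
      · have h3 : orderOf ζ = 0 := by
          by_contra h4
          have h5 : orderOf ζ = 1 := by omega
          exact h1 (orderOf_eq_one_iff.1 h5)
        rw [h3, Finset.filter_false_of_mem (s := (univ : Finset ι)), Finset.card_empty]
        · exact Nat.zero_le _
        · intro i _ h4
          exact (ha i).ne' (zero_dvd_iff.1 h4)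
      · exact hdiv _ h2
  obtain ⟨N, hN⟩ := (IsAlgClosed.dvd_iff_roots_le_roots hA0 hB0).2 hle
  have hN0 : N ≠ 0 := by
    rintro rfl
    exact hB0 (by rw [hN, mul_zero])
  have hAm : A.Monic := monic_prod ha
  have hBm : B.Monic := ((monic_X_sub_C 1).pow _).mul (monic_prod hd)
  have hNm : N.Monic := by
    rw [hN] at hBm
    exact hAm.of_mul_monic_left hBm
  have hrootsN : B.roots = A.roots + N.roots := by
    rw [hN]
    exact roots_mul (mul_ne_zero hA0 hN0)
  have hNroots : ∀ ρ ∈ N.roots, ‖ρ‖ = 1 ∧ ρ ≠ 1 := by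
    intro ρ hρ
    have h1 : ρ ≠ 1 := by
      rintro rfl
      have h2 := hcount1
      rw [hrootsN, Multiset.count_add] at h2
      have h3 := Multiset.count_pos.2 hρ
      omega
    refine ⟨?_, h1⟩
    have h2 : 0 < B.roots.count ρ := by
      rw [hrootsN, Multiset.count_add]
      have h3 := Multiset.count_pos.2 hρ
      omega
    rw [hrootsB, Multiset.count_add, hcountX, if_neg h1, zero_add, hcountD, Finset.card_pos] at h2
    obtain ⟨j, hj⟩ := h2
    have h3 := orderOf_dvd_iff_pow_eq_one.1 (Finset.mem_filter.1 hj).2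
    exact Complex.norm_eq_one_of_pow_eq_one h3 (hd j).ne'
  -- the degree
  have hdeg : N.roots.card + ∑ i, a i = n + 1 + ∑ j, d j := by
    have h1 : B.natDegree = n + 1 + ∑ j, d j := by
      rw [hB, ((monic_X_sub_C (1 : ℂ)).pow _).natDegree_mul (monic_prod hd), natDegree_prod' hd,
        (monic_X_sub_C (1 : ℂ)).natDegree_pow, natDegree_X_sub_C, mul_one]
    rw [hN, hAm.natDegree_mul hNm, natDegree_prod' ha,
      (IsAlgClosed.splits N).natDegree_eq_card_roots] at h1
    omega
  -- the list of the inverses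
  set zs : List ℂ := (N.roots.map fun ρ => ρ⁻¹).toList with hzs
  have hzs1 : ∀ z ∈ zs, ‖z‖ = 1 ∧ z ≠ 1 := by
    intro z hz
    rw [hzs, Multiset.mem_toList, Multiset.mem_map] at hz
    obtain ⟨ρ, hρ, rfl⟩ := hz
    obtain ⟨h1, h2⟩ := hNroots ρ hρ
    refine ⟨by rw [norm_inv, h1, inv_one], ?_⟩
    intro h3
    exact h2 (inv_eq_one.1 h3)
  have hzs2 : zs.length ≤ e + n := by
    rw [hzs, Multiset.length_toList, Multiset.card_map]
    omega
  have hcoeff := Strip.coeff_F_ne hzs1 hzs2
  by_contra hcon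
  apply hcoeff
  -- the power series
  have hprod : (zs.map fun z => 1 - PowerSeries.C z * PowerSeries.X).prod *
      PowerSeries.C ((N.roots.map fun ρ => -ρ).prod) = (N : PowerSeries ℂ) := by
    conv_rhs => rw [(IsAlgClosed.splits N).eq_prod_roots_of_monic hNm]
    have h1 : (zs.map fun z => (1 : PowerSeries ℂ) - PowerSeries.C z * PowerSeries.X).prod =
        (N.roots.map fun ρ => (1 : PowerSeries ℂ) - PowerSeries.C ρ⁻¹ * PowerSeries.X).prod := by
      rw [← Multiset.prod_coe, ← Multiset.map_coe, hzs, Multiset.coe_toList, Multiset.map_map]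
      rfl
    rw [h1]
    have h2 : ∀ s : Multiset ℂ, (∀ ρ ∈ s, ρ ≠ 0) →
        (s.map fun ρ => (1 : PowerSeries ℂ) - PowerSeries.C ρ⁻¹ * PowerSeries.X).prod *
          PowerSeries.C ((s.map fun ρ => -ρ).prod) =
        (((s.map (X - C ·)).prod : ℂ[X]) : PowerSeries ℂ) := by
      intro s
      induction s using Multiset.induction_on with
      | empty => simp
      | cons b s ih =>
        intro hs
        rw [Multiset.map_cons, Multiset.map_cons, Multiset.map_cons, Multiset.prod_cons,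
          Multiset.prod_cons, Multiset.prod_cons, Polynomial.coe_mul,
          ← ih fun ρ hρ => hs ρ (Multiset.mem_cons_of_mem hρ), map_mul]
        have h3 : ((X - C b : ℂ[X]) : PowerSeries ℂ) =
            (1 - PowerSeries.C b⁻¹ * PowerSeries.X) * PowerSeries.C (-b) := by
          rw [Polynomial.coe_sub, Polynomial.coe_X, Polynomial.coe_C, sub_mul, one_mul,
            mul_right_comm, ← map_mul]
          have h4 : b⁻¹ * -b = -1 := by
            have := hs b (Multiset.mem_cons_self b s)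
            field_simp
          rw [h4, map_neg, map_neg, map_one]
          ring
        rw [h3]
        ring
    apply h2
    intro ρ hρ h0
    have := (hNroots ρ hρ).1
    rw [h0, norm_zero] at this
    exact zero_ne_one this
  set c : ℂ := (N.roots.map fun ρ => -ρ).prod with hc
  have hc0 : c ≠ 0 := by
    apply Multiset.prod_ne_zero
    intro h0
    obtain ⟨ρ, hρ, h1⟩ := Multiset.mem_map.1 h0
    have := (hNroots ρ hρ).1
    rw [neg_eq_zero.1 h1, norm_zero] at this
    exact zero_ne_one this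
  have hF : Strip.F n zs * PowerSeries.C c = (N : PowerSeries ℂ) * (PowerSeries.mk (1 : ℕ → ℂ)) ^ (n + 1) := by
    rw [Strip.F, ← hprod]
    ring
  -- the support
  set S := AddSubmonoid.closure (Set.range a) with hS
  have hcoe : (A : PowerSeries ℂ) * N = (B : PowerSeries ℂ) := by
    rw [← Polynomial.coe_mul, ← hN]
  have hAc : (A : PowerSeries ℂ) = ∏ i, (PowerSeries.X ^ a i - 1) := by
    rw [hA, coe_prod]
    refine Finset.prod_congr rfl fun i _ => ?_
    rw [Polynomial.coe_sub, Polynomial.coe_pow, Polynomial.coe_X, Polynomial.coe_one]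
  have hDc : (D : PowerSeries ℂ) = ∏ j, (PowerSeries.X ^ d j - 1) := by
    rw [hD, coe_prod]
    refine Finset.prod_congr rfl fun j _ => ?_
    rw [Polynomial.coe_sub, Polynomial.coe_pow, Polynomial.coe_X, Polynomial.coe_one]
  have hBc : (B : PowerSeries ℂ) = (PowerSeries.X - 1) ^ (n + 1) * (D : PowerSeries ℂ) := by
    rw [hB, Polynomial.coe_mul, Polynomial.coe_pow, Polynomial.coe_sub, Polynomial.coe_X,
      Polynomial.coe_C, map_one]
  have hAG : (A : PowerSeries ℂ) * ∏ i, G (a i) = (-1) ^ Fintype.card ι := by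
    rw [hAc, ← Finset.prod_mul_distrib, Finset.prod_congr rfl fun i _ => G_mul (ha i),
      Finset.prod_const, Finset.card_univ]
  have hmk : (PowerSeries.X - 1 : PowerSeries ℂ) * PowerSeries.mk 1 = -1 := by
    have := PowerSeries.mk_one_mul_one_sub_eq_one ℂ
    linear_combination -this
  have hmain : Strip.F n zs * PowerSeries.C c * (-1) ^ Fintype.card ι =
      (-1) ^ (n + 1) * ((D : PowerSeries ℂ) * ∏ i, G (a i)) := by
    rw [hF, ← hAG]
    calc (N : PowerSeries ℂ) * (PowerSeries.mk (1 : ℕ → ℂ)) ^ (n + 1) * ((A : PowerSeries ℂ) * ∏ i, G (a i))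
        = ((A : PowerSeries ℂ) * (N : PowerSeries ℂ)) * (PowerSeries.mk (1 : ℕ → ℂ)) ^ (n + 1) *
          ∏ i, G (a i) := by ring
      _ = ((PowerSeries.X - 1) * PowerSeries.mk (1 : ℕ → ℂ)) ^ (n + 1) * ((D : PowerSeries ℂ) *
          ∏ i, G (a i)) := by rw [hcoe, hBc, mul_pow]; ring
      _ = _ := by rw [hmk]
  have hsupp : (D : PowerSeries ℂ) * ∏ i, G (a i) ∈ Supp S := by
    refine (Supp S).mul_mem ?_ ((Supp S).prod_mem fun i _ => G_mem
      (AddSubmonoid.subset_closure (Set.mem_range_self i)))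
    rw [hDc]
    exact (Supp S).prod_mem fun j _ => X_pow_sub_one_mem (hmem j)
  have hzero := hsupp e hcon
  have hsq : ∀ k : ℕ, ((-1 : PowerSeries ℂ)) ^ k * (-1) ^ k = 1 := by
    intro k
    rw [← mul_pow]
    simp
  have hFc : Strip.F n zs = PowerSeries.C (c⁻¹ * (-1) ^ Fintype.card ι * (-1) ^ (n + 1)) *
      ((D : PowerSeries ℂ) * ∏ i, G (a i)) := by
    have h1 : PowerSeries.C c⁻¹ * PowerSeries.C c = (1 : PowerSeries ℂ) := by
      rw [← map_mul, inv_mul_cancel₀ hc0, map_one]
    have h2 : PowerSeries.C (c⁻¹ * (-1) ^ Fintype.card ι * (-1) ^ (n + 1)) =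
        PowerSeries.C c⁻¹ * (-1) ^ Fintype.card ι * (-1 : PowerSeries ℂ) ^ (n + 1) := by
      rw [map_mul, map_mul, map_pow, map_pow, map_neg, map_one]
    rw [h2]
    calc Strip.F n zs = (PowerSeries.C c⁻¹ * PowerSeries.C c) *
          ((-1) ^ Fintype.card ι * (-1) ^ Fintype.card ι) * Strip.F n zs := by
          rw [h1, hsq]; ring
      _ = PowerSeries.C c⁻¹ * (-1) ^ Fintype.card ι * (Strip.F n zs * PowerSeries.C c *
          (-1) ^ Fintype.card ι) := by ring
      _ = _ := by rw [hmain]; ring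
  rw [hFc, PowerSeries.coeff_C_mul, hzero, mul_zero]

end Pool.Agent.H930.Fuj.Numeric
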