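import Mathlib

/-!
# Coefficients of `∏ (1 - ζ X) / (1 - X) ^ (n + 1)` with `|ζ| = 1`

If all `ζ` have absolute value one and are different from one, then the coefficient of `X ^ e` is not
zero for `e + n ≥` the number of the factors: it is the value at `e` of a polynomial whose zeros are
`-1, -2, …` or have real part at most `(m - n - 1) / 2`, `m` being the number of factors (compare
Rodriguez-Villegas, On the zeros of certain polynomials).
-/

set_option autoImplicit false

namespace Pool.Agent.H930.Fuj.Strip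

open Polynomial

theorem norm_sub_one_le {z : ℂ} (h : 1 / 2 ≤ z.re) : ‖z - 1‖ ≤ ‖z‖ := by
  rw [← sq_le_sq₀ (norm_nonneg _) (norm_nonneg _), ← Complex.normSq_eq_norm_sq,
    ← Complex.normSq_eq_norm_sq, Complex.normSq_apply, Complex.normSq_apply]
  simp only [Complex.sub_re, Complex.one_re, Complex.sub_im, Complex.one_im, sub_zero]
  nlinarith

theorem norm_sub_one_lt {z : ℂ} (h : 1 / 2 < z.re) : ‖z - 1‖ < ‖z‖ := by
  rw [← sq_lt_sq₀ (norm_nonneg _) (norm_nonneg _), ← Complex.normSq_eq_norm_sq,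
    ← Complex.normSq_eq_norm_sq, Complex.normSq_apply, Complex.normSq_apply]
  simp only [Complex.sub_re, Complex.one_re, Complex.sub_im, Complex.one_im, sub_zero]
  nlinarith

theorem norm_prod_map (s : Multiset ℂ) (g : ℂ → ℂ) :
    ‖(s.map g).prod‖ = (s.map fun ρ => ‖g ρ‖).prod := by
  induction s using Multiset.induction_on with
  | empty => simp
  | cons a s ih => simp [ih]

theorem prod_map_lt_prod_map {s : Multiset ℂ} (hs : s ≠ 0) (g h : ℂ → ℝ)
    (h0 : ∀ ρ ∈ s, 0 < g ρ) (h1 : ∀ ρ ∈ s, g ρ < h ρ) : (s.map g).prod < (s.map h).prod := by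
  induction s using Multiset.induction_on with
  | empty => exact absurd rfl hs
  | cons a s ih =>
    rw [Multiset.map_cons, Multiset.map_cons, Multiset.prod_cons, Multiset.prod_cons]
    have ha0 := h0 a (Multiset.mem_cons_self a s)
    have ha1 := h1 a (Multiset.mem_cons_self a s)
    have hpos : ∀ t : Multiset ℂ, (∀ ρ ∈ t, 0 < g ρ) → 0 < (t.map g).prod := by
      intro t
      induction t using Multiset.induction_on with
      | empty => simp
      | cons b t ih2 =>
        intro h2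
        rw [Multiset.map_cons, Multiset.prod_cons]
        exact mul_pos (h2 b (Multiset.mem_cons_self b t))
          (ih2 fun ρ hρ => h2 ρ (Multiset.mem_cons_of_mem hρ))
    have hps := hpos s fun ρ hρ => h0 ρ (Multiset.mem_cons_of_mem hρ)
    by_cases hs0 : s = 0
    · subst hs0
      simpa using ha1
    · have h3 := ih hs0 (fun ρ hρ => h0 ρ (Multiset.mem_cons_of_mem hρ))
        (fun ρ hρ => h1 ρ (Multiset.mem_cons_of_mem hρ))
      exact mul_lt_mul'' ha1 h3 ha0.le hps.le

theorem norm_eval_le {V : ℂ[X]} {σ : ℝ} (hV : ∀ ρ ∈ V.roots, ρ.re ≤ σ) {x : ℂ}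
    (hx : σ + 1 / 2 ≤ x.re) : ‖V.eval (x - 1)‖ ≤ ‖V.eval x‖ := by
  have hs : V.Splits := IsAlgClosed.splits V
  rw [hs.eval_eq_prod_roots, hs.eval_eq_prod_roots, norm_mul, norm_mul, norm_prod_map,
    norm_prod_map]
  refine mul_le_mul_of_nonneg_left ?_ (norm_nonneg _)
  refine Multiset.prod_map_le_prod_map₀ _ _ (fun ρ _ => norm_nonneg _) ?_
  intro ρ hρ
  have h1 : x - 1 - ρ = (x - ρ) - 1 := by ring
  rw [h1]
  apply norm_sub_one_le
  rw [Complex.sub_re]
  have := hV ρ hρ
  linarith

theorem eval_ne_zero {V : ℂ[X]} (hV0 : V ≠ 0) {σ : ℝ} (hV : ∀ ρ ∈ V.roots, ρ.re ≤ σ) {x : ℂ}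
    (hx : σ < x.re) : V.eval x ≠ 0 := by
  intro h
  have := hV x ((mem_roots hV0).2 h)
  linarith

theorem norm_eval_lt {V : ℂ[X]} (hV0 : V ≠ 0) (hr : V.roots ≠ 0) {σ : ℝ}
    (hV : ∀ ρ ∈ V.roots, ρ.re ≤ σ) {x : ℂ} (hx : σ + 1 / 2 < x.re) :
    ‖V.eval (x - 1)‖ < ‖V.eval x‖ := by
  have hs : V.Splits := IsAlgClosed.splits V
  by_cases h0 : V.eval (x - 1) = 0
  · rw [h0, norm_zero, norm_pos_iff]
    exact eval_ne_zero hV0 hV (by linarith)
  rw [hs.eval_eq_prod_roots] at h0 ⊢
  rw [hs.eval_eq_prod_roots x, norm_mul, norm_mul, norm_prod_map,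
    norm_prod_map]
  refine mul_lt_mul_of_pos_left ?_ (norm_pos_iff.2 (leadingCoeff_ne_zero.2 hV0))
  refine prod_map_lt_prod_map hr _ _ ?_ ?_
  · intro ρ hρ
    rw [norm_pos_iff]
    intro h1
    apply h0
    rw [Multiset.prod_eq_zero (Multiset.mem_map.2 ⟨ρ, hρ, h1⟩), mul_zero]
  · intro ρ hρ
    have h1 : x - 1 - ρ = (x - ρ) - 1 := by ring
    rw [h1]
    apply norm_sub_one_lt
    rw [Complex.sub_re]
    have := hV ρ hρ
    linarith

theorem step_ne {V : ℂ[X]} (hV0 : V ≠ 0) {σ : ℝ} (hV : ∀ ρ ∈ V.roots, ρ.re ≤ σ) {z : ℂ}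
    (hz : ‖z‖ = 1) (hz1 : z ≠ 1) {x : ℂ} (hx : σ + 1 / 2 < x.re) :
    V.eval x - z * V.eval (x - 1) ≠ 0 := by
  by_cases hr : V.roots = 0
  · have hs : V.Splits := IsAlgClosed.splits V
    rw [hs.eval_eq_prod_roots x, hs.eval_eq_prod_roots (x - 1), hr]
    simp only [Multiset.map_zero, Multiset.prod_zero, mul_one]
    have h1 : V.leadingCoeff - z * V.leadingCoeff = (1 - z) * V.leadingCoeff := by ring
    rw [h1]
    exact mul_ne_zero (sub_ne_zero.2 (Ne.symm hz1)) (leadingCoeff_ne_zero.2 hV0)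
  · intro h
    have h1 : V.eval x = z * V.eval (x - 1) := by linear_combination h
    have h2 := norm_eval_lt hV0 hr hV hx
    rw [h1, norm_mul, hz, one_mul] at h2
    exact lt_irrefl _ h2

theorem step_ne' {V : ℂ[X]} (hV0 : V ≠ 0) {σ : ℝ} (hV : ∀ ρ ∈ V.roots, ρ.re ≤ σ) {z : ℂ}
    (hz : ‖z‖ = 1) {x : ℂ} (hx : σ + 1 / 2 < x.re) {k : ℝ} (hk : 0 < k) (hkx : -k / 2 < x.re) :
    (x + k) * V.eval x - z * (x * V.eval (x - 1)) ≠ 0 := by
  intro h
  have h1 : (x + k) * V.eval x = z * (x * V.eval (x - 1)) := by linear_combination h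
  have h2 := norm_eval_le hV hx.le
  have h3 : V.eval x ≠ 0 := eval_ne_zero hV0 hV (by linarith)
  have h4 : ‖x‖ < ‖x + k‖ := by
    rw [← sq_lt_sq₀ (norm_nonneg _) (norm_nonneg _), ← Complex.normSq_eq_norm_sq,
      ← Complex.normSq_eq_norm_sq, Complex.normSq_apply, Complex.normSq_apply]
    simp only [Complex.add_re, Complex.ofReal_re, Complex.add_im, Complex.ofReal_im, add_zero]
    nlinarith
  have h5 : ‖(x + k) * V.eval x‖ = ‖x‖ * ‖V.eval (x - 1)‖ := by
    rw [h1, norm_mul, norm_mul, hz, one_mul]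
  rw [norm_mul] at h5
  have h6 : 0 < ‖V.eval x‖ := norm_pos_iff.2 h3
  have h7 : ‖x‖ * ‖V.eval (x - 1)‖ ≤ ‖x‖ * ‖V.eval x‖ :=
    mul_le_mul_of_nonneg_left h2 (norm_nonneg _)
  nlinarith

/-- The polynomials (up to `n!`) which give the coefficients. -/
noncomputable def P (n : ℕ) : List ℂ → ℂ[X]
  | [] => ∏ i ∈ Finset.range n, (X + C ((i : ℂ) + 1))
  | z :: zs => P n zs - C z * (P n zs).comp (X - C 1)

theorem P_form (n : ℕ) (zs : List ℂ) (h : ∀ z ∈ zs, ‖z‖ = 1 ∧ z ≠ 1) :
    ∃ V : ℂ[X], V ≠ 0 ∧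
      P n zs = (∏ i ∈ Finset.range (n - zs.length), (X + C ((i : ℂ) + 1))) * V ∧
      ∀ ρ ∈ V.roots, ρ.re ≤ ((zs.length : ℝ) - n - 1) / 2 := by
  induction zs with
  | nil => exact ⟨1, one_ne_zero, by simp [P], by simp⟩
  | cons z zs ih =>
    obtain ⟨V, hV0, hP, hV⟩ := ih fun w hw => h w (List.mem_cons_of_mem _ hw)
    obtain ⟨hz, hz1⟩ := h z List.mem_cons_self
    rcases Nat.lt_or_ge zs.length n with hlt | hge
    · obtain ⟨k, hk⟩ : ∃ k, n - zs.length = k + 1 := ⟨n - zs.length - 1, by omega⟩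
      have hk' : n - (z :: zs).length = k := by simp only [List.length_cons]; omega
      have hn : (n : ℝ) = zs.length + k + 1 := by
        have : n = zs.length + k + 1 := by omega
        exact_mod_cast this
      refine ⟨(X + C ((k : ℂ) + 1)) * V - C z * (X * V.comp (X - C 1)), ?_, ?_, ?_⟩
      · intro h0
        have h1 := congrArg (eval (1 : ℂ)) h0
        simp only [eval_sub, eval_mul, eval_add, eval_X, eval_C, eval_comp, eval_zero] at h1
        refine step_ne' hV0 hV hz (x := 1) (k := (k : ℝ) + 1) ?_ (by positivity) ?_ ?_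
        · rw [Complex.one_re, hn]
          have : (0 : ℝ) ≤ k := Nat.cast_nonneg k
          linarith
        · rw [Complex.one_re]
          have : (0 : ℝ) ≤ k := Nat.cast_nonneg k
          linarith
        · push_cast
          exact h1
      · rw [hk', P, hP, hk]
        rw [mul_comp, prod_comp, Finset.prod_range_succ]
        have h2 : (∏ i ∈ Finset.range (k + 1), ((X : ℂ[X]) + C ((i : ℂ) + 1)).comp (X - C 1)) =
            X * ∏ i ∈ Finset.range k, (X + C ((i : ℂ) + 1)) := by
          rw [Finset.prod_range_succ']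
          rw [mul_comm]
          congr 1
          · simp
          · refine Finset.prod_congr rfl fun i _ => ?_
            simp only [add_comp, X_comp, C_comp]
            push_cast
            simp only [map_add, map_one]
            ring
        rw [h2]
        ring
      · intro ρ hρ
        by_contra hcon
        push Not at hcon
        simp only [List.length_cons] at hcon
        push_cast at hcon
        have hρ' := (mem_roots'.1 hρ).2
        rw [IsRoot.def] at hρ'
        simp only [eval_sub, eval_mul, eval_add, eval_X, eval_C, eval_comp] at hρ'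
        refine step_ne' hV0 hV hz (x := ρ) (k := (k : ℝ) + 1) ?_ (by positivity) ?_ ?_
        · linarith
        · rw [hn] at hcon
          linarith
        · push_cast
          exact hρ'
    · have hk : n - zs.length = 0 := by omega
      have hk' : n - (z :: zs).length = 0 := by simp only [List.length_cons]; omega
      refine ⟨V - C z * V.comp (X - C 1), ?_, ?_, ?_⟩
      · intro h0
        have h1 := congrArg (eval ((zs.length : ℂ) + 1)) h0
        simp only [eval_sub, eval_mul, eval_X, eval_C, eval_comp, eval_zero] at h1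
        refine step_ne hV0 hV hz hz1 (x := (zs.length : ℂ) + 1) ?_ h1
        simp only [Complex.add_re, Complex.natCast_re, Complex.one_re]
        have h2 : (0 : ℝ) ≤ n := Nat.cast_nonneg n
        have h3 : (0 : ℝ) ≤ zs.length := Nat.cast_nonneg _
        linarith
      · rw [hk', P, hP, hk]
        simp
      · intro ρ hρ
        by_contra hcon
        push Not at hcon
        simp only [List.length_cons] at hcon
        push_cast at hcon
        have hρ' := (mem_roots'.1 hρ).2
        rw [IsRoot.def] at hρ'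
        simp only [eval_sub, eval_mul, eval_X, eval_C, eval_comp] at hρ'
        exact step_ne hV0 hV hz hz1 (x := ρ) (by linarith) hρ'

theorem P_eval_ne {n : ℕ} {zs : List ℂ} (h : ∀ z ∈ zs, ‖z‖ = 1 ∧ z ≠ 1) {e : ℕ}
    (he : zs.length ≤ e + n) : (P n zs).eval (e : ℂ) ≠ 0 := by
  obtain ⟨V, hV0, hP, hV⟩ := P_form n zs h
  rw [hP, eval_mul, eval_prod]
  refine mul_ne_zero (Finset.prod_ne_zero_iff.2 fun i _ => ?_) (eval_ne_zero hV0 hV ?_)
  · simp only [eval_add, eval_X, eval_C]
    have : ((e + i + 1 : ℕ) : ℂ) ≠ 0 := Nat.cast_ne_zero.2 (by omega)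
    push_cast at this
    rwa [← add_assoc]
  · rw [Complex.natCast_re]
    have h1 : (zs.length : ℝ) ≤ e + n := by exact_mod_cast he
    have h2 : (0 : ℝ) ≤ e := Nat.cast_nonneg e
    linarith

theorem P_eval_neg_one {n : ℕ} {zs : List ℂ} (h : ∀ z ∈ zs, ‖z‖ = 1 ∧ z ≠ 1)
    (hn : zs.length < n) : (P n zs).eval (-1) = 0 := by
  obtain ⟨V, hV0, hP, hV⟩ := P_form n zs h
  rw [hP, eval_mul, eval_prod, Finset.prod_eq_zero (i := 0) (Finset.mem_range.2 (by omega)),
    zero_mul]
  simp

/-- The power series `∏ (1 - ζ X) / (1 - X) ^ (n + 1)`. -/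
noncomputable def F (n : ℕ) (zs : List ℂ) : PowerSeries ℂ :=
  (zs.map fun z => 1 - PowerSeries.C z * PowerSeries.X).prod * (PowerSeries.mk 1) ^ (n + 1)

theorem coeff_F (n : ℕ) (zs : List ℂ) (h : ∀ z ∈ zs, ‖z‖ = 1 ∧ z ≠ 1) (e : ℕ)
    (he : zs.length ≤ e + n) :
    PowerSeries.coeff e (F n zs) * n.factorial = (P n zs).eval (e : ℂ) := by
  induction zs generalizing e with
  | nil =>
    rw [F, P, List.map_nil, List.prod_nil, one_mul, PowerSeries.mk_one_pow_eq_mk_choose_add,
      PowerSeries.coeff_mk, eval_prod]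
    simp only [eval_add, eval_X, eval_C]
    have h1 := Nat.ascFactorial_eq_factorial_mul_choose e n
    rw [Nat.ascFactorial_eq_prod_range] at h1
    have h2 : ((∏ i ∈ Finset.range n, (e + 1 + i) : ℕ) : ℂ) = ∏ i ∈ Finset.range n, ((e : ℂ) + (i + 1)) := by
      push_cast
      exact Finset.prod_congr rfl fun i _ => by ring
    rw [← h2, h1]
    push_cast
    rw [add_comm n e]
    ring
  | cons z zs ih =>
    have hh : ∀ w ∈ zs, ‖w‖ = 1 ∧ w ≠ 1 := fun w hw => h w (List.mem_cons_of_mem _ hw)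
    have hF : F n (z :: zs) = F n zs - PowerSeries.C z * (PowerSeries.X * F n zs) := by
      unfold F
      rw [List.map_cons, List.prod_cons]
      ring
    rw [hF, map_sub, PowerSeries.coeff_C_mul, P, eval_sub, eval_mul, eval_C, eval_comp]
    simp only [eval_sub, eval_X, eval_C]
    simp only [List.length_cons] at he
    cases e with
    | zero =>
      rw [PowerSeries.coeff_zero_X_mul, mul_zero, sub_zero, ih hh 0 (by omega)]
      have h3 := P_eval_neg_one hh (n := n) (by omega)
      rw [Nat.cast_zero, zero_sub, h3, mul_zero, sub_zero]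
    | succ e =>
      rw [PowerSeries.coeff_succ_X_mul, sub_mul, mul_assoc, ih hh (e + 1) (by omega),
        ih hh e (by omega)]
      congr 3
      push_cast
      ring

theorem coeff_F_ne {n : ℕ} {zs : List ℂ} (h : ∀ z ∈ zs, ‖z‖ = 1 ∧ z ≠ 1) {e : ℕ}
    (he : zs.length ≤ e + n) : PowerSeries.coeff e (F n zs) ≠ 0 := by
  intro h0
  have h1 := coeff_F n zs h e he
  rw [h0, zero_mul] at h1
  exact P_eval_ne h he h1.symm

end Pool.Agent.H930.Fuj.Strip
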